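import Pool.Agent.H36.Sim
import Pool.Agent.H36.Gr

namespace Pool.Agent.Results.MP_a87d5d_lc.NoKernel

open Pool.Agent.H38.NP Pool.Agent.H36 Pool.Agent.H36.Gr Finset

/-- FFVS instances: graph (number of vertices, edge list), `k`, `d` -/
abbrev Inst := (ℕ × List (ℕ × ℕ)) × ℕ × ℕ

open Classical in
def Yes (I : Inst) : Prop :=
  ∃ S : Finset (Fin I.1.1), #S ≤ I.2.1 ∧
    (∀ v, #{u ∈ S | (graphOf I.1.1 I.1.2).Adj v u} ≤ I.2.2) ∧
    ((graphOf I.1.1 I.1.2).induce {v | v ∉ S}).IsAcyclic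

def PolyKernel : Prop :=
  ∃ f, PolyTime f ∧ ∃ a c : ℕ, ∀ I : Inst, 1 ≤ I.2.2 → ∃ I' : Inst, f (enc I) = enc I' ∧
    (Yes I ↔ Yes I') ∧ (enc I').length ≤ a * (I.2.1 + 1) ^ c

/-- Set Packing instances: universe size, sets, number of sets wanted -/
abbrev SP := ℕ × List (List ℕ) × ℕ

def Valid (J : SP) : Prop :=
  (∀ s ∈ J.2.1, s ≠ [] ∧ ∀ x ∈ s, x < J.1) ∧ J.2.1 ≠ [] ∧ J.2.2 ≤ J.1

def Packs (J : SP) : Prop :=
  ∃ T : List ℕ, T.Nodup ∧ T.length = J.2.2 ∧ (∀ t ∈ T, t < J.2.1.length) ∧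
    ∀ t ∈ T, ∀ t' ∈ T, t ≠ t' → ∀ x ∈ J.2.1.getD t [], x ∉ J.2.1.getD t' []

def Compress : Prop :=
  ∃ g, PolyTime g ∧ ∃ a c : ℕ, ∀ J : SP, Valid J → ∃ I' : Inst, g (enc J) = enc I' ∧
    (Packs J ↔ Yes I') ∧ (enc I').length ≤ a * (J.1 + 1) ^ c

theorem not_acyc {V : Type} (H : SimpleGraph V) (L : ℕ) (hL : 2 ≤ L) (f : Fin (L+1) → V)
    (hf : Function.Injective f) (h1 : ∀ j : Fin L, H.Adj (f j.castSucc) (f j.succ))
    (h2 : H.Adj (f 0) (f (Fin.last L))) : ¬ H.IsAcyclic := fun h => by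
  refine SimpleGraph.isAcyclic_iff_forall_adj_isBridge.1 h h2 ?_
  suffices ∀ j, (H.deleteEdges {s(f 0, f (Fin.last L))}).Reachable (f 0) (f j) from this _
  intro j
  induction j using Fin.induction with
  | zero => rfl
  | succ j ih =>
    refine ih.trans (SimpleGraph.Adj.reachable ?_)
    rw [SimpleGraph.deleteEdges_adj]
    refine ⟨h1 j, fun e => ?_⟩
    simp only [Set.mem_singleton_iff, Sym2.eq_iff, hf.eq_iff, Fin.ext_iff, Fin.val_castSucc,
      Fin.val_succ, Fin.val_zero, Fin.val_last] at e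
    omega

theorem acyc_of_rank {V : Type} (H : SimpleGraph V) (ρ : V → ℕ)
    (h : ∀ v u w, H.Adj v u → H.Adj v w → ρ v ≤ ρ u → ρ v ≤ ρ w → u = w) : H.IsAcyclic := by
  classical
  intro x c hc
  obtain ⟨v, hv, hmin⟩ := exists_min_image c.support.toFinset ρ ⟨x, by simp⟩
  rw [List.mem_toFinset] at hv
  have hc' := hc.rotate hv
  have hs : ∀ y ∈ (c.rotate v hv).support, ρ v ≤ ρ y := fun y hy =>
    hmin y (List.mem_toFinset.2 ((SimpleGraph.Walk.mem_support_rotate_iff _ _ _).1 hy))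
  exact hc'.snd_ne_penultimate (h v _ _ (SimpleGraph.Walk.adj_snd hc'.not_nil)
    (SimpleGraph.Walk.adj_penultimate hc'.not_nil).symm
    (hs _ (SimpleGraph.Walk.getVert_mem_support _ _))
    (hs _ (SimpleGraph.Walk.getVert_mem_support _ _)))

abbrev Cd := ℕ × ℕ × ℕ

open Classical in
theorem yes_iff {vs : List Cd} (nd : vs.Nodup) (adj : Cd → Cd → Bool) (k d : ℕ) :
    Yes (mkG vs adj, k, d) ↔ ∃ S : Finset Cd, #S ≤ k ∧ (∀ c ∈ S, c ∈ vs) ∧
      (∀ c ∈ vs, #{u ∈ S | (GC adj).Adj c u} ≤ d) ∧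
      ((GC adj).induce {c | c ∈ vs ∧ c ∉ S}).IsAcyclic := by
  constructor
  · rintro ⟨S, h1, h2, h3⟩
    change Finset (Fin vs.length) at S
    refine ⟨S.image (code vs), card_image_le.trans h1, fun c hc => ?_, fun c hc => ?_, ?_⟩
    · obtain ⟨v, -, rfl⟩ := mem_image.1 hc
      exact code_mem _ _
    · obtain ⟨v, rfl⟩ := code_surj hc
      refine le_trans (le_trans (card_le_card fun u hu => ?_) (card_image_le (f := code vs))) (h2 v)
      obtain ⟨hu, hu'⟩ := mem_filter.1 hu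
      obtain ⟨w, hw, rfl⟩ := mem_image.1 hu
      exact mem_image.2 ⟨w, mem_filter.2 ⟨hw, (mkG_adj nd).2 hu'⟩, rfl⟩
    · let φ : ((GC adj).induce {c | c ∈ vs ∧ c ∉ S.image (code vs)}) →g
          ((RG vs adj).induce {v | v ∉ S}) :=
        ⟨fun c => ⟨ix nd c.1 c.2.1, fun h => c.2.2 (mem_image.2 ⟨_, h, code_ix _ _ _⟩)⟩,
          fun {a b} h => (RG_adj nd).2 (by
            show (GC adj).Adj (code vs (ix nd a.1 a.2.1)) (code vs (ix nd b.1 b.2.1))
            rw [code_ix, code_ix]; exact h)⟩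
      refine SimpleGraph.IsAcyclic.comap φ (fun a b h => Subtype.ext ?_) h3
      have : code vs (ix nd a.1 a.2.1) = code vs (ix nd b.1 b.2.1) :=
        congrArg (fun z => code vs z.1) h
      rwa [code_ix, code_ix] at this
  · rintro ⟨S, h1, -, h2, h3⟩
    refine ⟨(univ : Finset (Fin vs.length)).filter fun v => code vs v ∈ S,
      le_trans (card_le_card_of_injOn (code vs) (fun v hv => (mem_filter.1 hv).2)
        (code_inj nd).injOn) h1, fun v => le_trans (card_le_card_of_injOn (code vs)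
        (fun u hu => ?_) (code_inj nd).injOn) (h2 _ (code_mem vs v)), ?_⟩
    · obtain ⟨hu, hu'⟩ := mem_filter.1 hu
      exact mem_filter.2 ⟨(mem_filter.1 hu).2, (mkG_adj nd).1 hu'⟩
    · exact h3.comap ⟨fun v => ⟨code vs v.1, code_mem _ _, fun h => v.2 (mem_filter.2
        ⟨mem_univ _, h⟩)⟩, fun {a b} h => (mkG_adj nd).1 h⟩ fun a b h =>
        Subtype.ext (code_inj nd (congrArg Subtype.val h))

def ok (J : SP) (c : Cd) : Prop :=
  (c.1 = 0 ∧ c.2.1 < 2 * J.1 + 1 ∧ c.2.2 = 0) ∨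
  ((c.1 = 1 ∨ c.1 = 2) ∧ c.2.1 < 2 * J.1 + 1 ∧ c.2.2 < 2 * J.1 + 1 + J.2.2 + 1) ∨
  (c.1 = 3 ∧ c.2.1 < J.2.2 ∧ c.2.2 < 3 * J.2.1.length)

instance (J : SP) (c : Cd) : Decidable (ok J c) := by unfold ok; infer_instance

def vs (J : SP) : List Cd :=
  ((List.range 4).product ((List.range (2 * J.1 + 1 + J.2.2)).product
    (List.range (2 * J.1 + 1 + J.2.2 + 1 + 3 * J.2.1.length)))).filter fun c => decide (ok J c)

theorem mem_vs {J : SP} {c : Cd} : c ∈ vs J ↔ ok J c := by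
  obtain ⟨a, b, e⟩ := c
  unfold vs
  simp only [List.mem_filter, List.pair_mem_product, List.mem_range, decide_eq_true_eq]
  unfold ok
  dsimp only
  omega

theorem nd (J : SP) : (vs J).Nodup :=
  (List.nodup_range.product (List.nodup_range.product List.nodup_range)).filter _

def inF (J : SP) (x j : ℕ) : Prop := x ∈ J.2.1.getD (j % J.2.1.length) []

instance (J : SP) (x j : ℕ) : Decidable (inF J x j) := by unfold inF; infer_instance

def ad (J : SP) (u v : Cd) : Prop :=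
  (u.1 = 0 ∧ v.1 = 0 ∧ u.2.1 < J.1 ∧ J.1 ≤ v.2.1) ∨
  (u.1 = 0 ∧ (v.1 = 1 ∨ v.1 = 2) ∧ u.2.1 = v.2.1) ∨
  (u.1 = 1 ∧ v.1 = 2 ∧ u.2.1 = v.2.1 ∧ u.2.2 = v.2.2) ∨
  (u.1 = 0 ∧ v.1 = 3 ∧ u.2.1 < J.1 ∧ inF J u.2.1 v.2.2) ∨
  (u.1 = 3 ∧ v.1 = 3 ∧ u.2.1 = v.2.1 ∧
    (u.2.2 + 1 = v.2.2 ∨ (u.2.2 = 0 ∧ v.2.2 + 1 = 3 * J.2.1.length)))

instance (J : SP) (u v : Cd) : Decidable (ad J u v) := by unfold ad; infer_instance

def adj (J : SP) (u v : Cd) : Bool := decide (ad J u v)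

def red (J : SP) : Inst := (mkG (vs J) (adj J), 2 * J.1 + 1 + J.2.2, J.1 + 2)

theorem A_iff {J : SP} {u v : Cd} : (GC (adj J)).Adj u v ↔ u ≠ v ∧ (ad J u v ∨ ad J v u) := by
  simp [GC_adj, adj]

theorem A_of {J : SP} {u v : Cd} (h : ad J u v) (h' : u ≠ v) : (GC (adj J)).Adj u v :=
  A_iff.2 ⟨h', Or.inl h⟩

theorem nz {J : SP} {a b e : ℕ} (h : ok J (a, b, e))
    (h' : ¬ (a = 0 ∧ b < 2 * J.1 + 1 ∧ e = 0)) :
    a ≠ 0 ∧ (a = 3 → b < J.2.2 ∧ e < 3 * J.2.1.length) := by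
  unfold ok at h
  dsimp only at h
  omega

theorem adnz {J : SP} {a b e a1 b1 e1 : ℕ} (h0 : a ≠ 0) (h1 : a1 ≠ 0)
    (h : ad J (a, b, e) (a1, b1, e1) ∨ ad J (a1, b1, e1) (a, b, e)) :
    b1 = b ∧ ((((a = 1 ∧ a1 = 2) ∨ (a = 2 ∧ a1 = 1)) ∧ e1 = e) ∨ (a = 3 ∧ a1 = 3 ∧
      (e + 1 = e1 ∨ (e = 0 ∧ e1 + 1 = 3 * J.2.1.length) ∨ e1 + 1 = e ∨
          (e1 = 0 ∧ e + 1 = 3 * J.2.1.length)))) := by
  unfold ad at h
  simp only [h0, h1, false_and, false_or] at h
  rcases h with (h | h) | (h | h)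
  · exact ⟨h.2.2.1.symm, Or.inl ⟨Or.inl ⟨h.1, h.2.1⟩, h.2.2.2.symm⟩⟩
  · exact ⟨h.2.2.1.symm, Or.inr ⟨h.1, h.2.1, by have := h.2.2.2; tauto⟩⟩
  · exact ⟨h.2.2.1, Or.inl ⟨Or.inr ⟨h.2.1, h.1⟩, h.2.2.2⟩⟩
  · exact ⟨h.2.2.1, Or.inr ⟨h.2.1, h.1, by have := h.2.2.2; tauto⟩⟩

theorem rk {m t e e1 e2 : ℕ} (q3 : t < m) (q4 : e ≠ t) (q5 : e1 ≠ t) (q6 : e2 ≠ t)
    (q7 : e + 1 = e1 ∨ (e = 0 ∧ e1 + 1 = 3 * m) ∨ e1 + 1 = e ∨ (e1 = 0 ∧ e + 1 = 3 * m))
    (q8 : e + 1 = e2 ∨ (e = 0 ∧ e2 + 1 = 3 * m) ∨ e2 + 1 = e ∨ (e2 = 0 ∧ e + 1 = 3 * m))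
    (l0 : e < 3 * m) (l1 : e1 < 3 * m) (l2 : e2 < 3 * m)
    (r1 : (if t < e then e else e + 3 * m) ≤ if t < e1 then e1 else e1 + 3 * m)
    (r2 : (if t < e then e else e + 3 * m) ≤ if t < e2 then e2 else e2 + 3 * m) : e1 = e2 := by
  split_ifs at r1 r2 <;> omega

theorem forth {J : SP} (h : Packs J) : Yes (red J) := by
  classical
  obtain ⟨T, h1, h2, h3, h4⟩ := h
  have hT : ∀ i < J.2.2, T.getD i 0 ∈ T := fun i hi => by
    rw [List.getD_eq_getElem _ _ (by omega)]; exact List.getElem_mem _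
  have hS : ∀ c : Cd, c ∈ ((range (2 * J.1 + 1)).image fun a => ((0, a, 0) : Cd)) ∪
      ((range J.2.2).image fun i => ((3, i, T.getD i 0) : Cd)) ↔
      (c.1 = 0 ∧ c.2.1 < 2 * J.1 + 1 ∧ c.2.2 = 0) ∨
        (c.1 = 3 ∧ c.2.1 < J.2.2 ∧ c.2.2 = T.getD c.2.1 0) := by
    rintro ⟨a, b, e⟩
    simp only [mem_union, mem_image, mem_range, Prod.mk.injEq]
    constructor
    · rintro (⟨x, hx, h, h', h''⟩ | ⟨x, hx, h, h', h''⟩)
      · left; omega
      · right; rw [← h']; omega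
    · rintro (h | h)
      · exact Or.inl ⟨b, h.2.1, h.1.symm, rfl, h.2.2.symm⟩
      · exact Or.inr ⟨b, h.2.1, h.1.symm, rfl, h.2.2.symm⟩
  refine (yes_iff (nd J) _ _ _).2 ⟨((range (2 * J.1 + 1)).image fun a => ((0, a, 0) : Cd)) ∪
      ((range J.2.2).image fun i => ((3, i, T.getD i 0) : Cd)),
    (card_union_le _ _).trans (Nat.add_le_add
    (card_image_le.trans (by simp)) (card_image_le.trans (by simp))), fun c hc => ?_,
    fun c hc => ?_, ?_⟩
  · rw [hS] at hc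
    rw [mem_vs]
    unfold ok
    rcases hc with hc | hc
    · omega
    · have := h3 _ (hT _ hc.2.1)
      omega
  · by_cases hw : c.1 = 0 ∧ c.2.1 < J.1
    · have hone : #{u ∈ (range J.2.2).image fun i => ((3, i, T.getD i 0) : Cd) |
          inF J c.2.1 u.2.2} ≤ 1 := card_le_one.2 fun a ha b hb => by
        obtain ⟨ha, ha'⟩ := mem_filter.1 ha
        obtain ⟨hb, hb'⟩ := mem_filter.1 hb
        obtain ⟨i, hi, rfl⟩ := mem_image.1 ha
        obtain ⟨j, hj, rfl⟩ := mem_image.1 hb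
        rw [mem_range] at hi hj
        unfold inF at ha' hb'
        rw [Nat.mod_eq_of_lt (h3 _ (hT _ hi))] at ha'
        rw [Nat.mod_eq_of_lt (h3 _ (hT _ hj))] at hb'
        have e : T.getD i 0 = T.getD j 0 := by
          by_contra hne
          exact h4 _ (hT _ hi) _ (hT _ hj) hne _ ha' hb'
        rw [List.getD_eq_getElem _ _ (by omega), List.getD_eq_getElem _ _ (by omega),
          h1.getElem_inj_iff] at e
        rw [e]
      refine le_trans (card_le_card (t := ((Ico J.1 (2 * J.1 + 1)).image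
        fun a => ((0, a, 0) : Cd)) ∪ _) fun u hu => ?_) ((card_union_le _ _).trans
        (le_trans (Nat.add_le_add card_image_le hone) (by simp; omega)))
      obtain ⟨hu, hu'⟩ := mem_filter.1 hu
      have hu2 := (hS u).1 hu
      have hu3 := (A_iff.1 hu').2
      unfold ad at hu3
      rcases mem_union.1 hu with hu | hu
      · obtain ⟨a, ha, rfl⟩ := mem_image.1 hu
        refine mem_union_left _ (mem_image.2 ⟨a, mem_Ico.2 ⟨?_, mem_range.1 ha⟩, rfl⟩)
        dsimp only at hu3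
        omega
      · refine mem_union_right _ (mem_filter.2 ⟨hu, ?_⟩)
        obtain ⟨a, ha, rfl⟩ := mem_image.1 hu
        by_contra hn
        simp only [hn, and_false, false_or] at hu3
        omega
    · refine le_trans (card_le_card (t := insert (0, c.2.1, 0) (insert (3, c.2.1, T.getD c.2.1 0)
        ((range J.1).image fun a => ((0, a, 0) : Cd)))) fun u hu => ?_)
        ((card_insert_le _ _).trans (Nat.succ_le_succ ((card_insert_le _ _).trans
          (Nat.succ_le_succ (card_image_le.trans (by simp))))))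
      obtain ⟨hu, hu'⟩ := mem_filter.1 hu
      have hu3 := (A_iff.1 hu').2
      unfold ad at hu3
      simp only [mem_insert, mem_image, mem_range]
      rcases mem_union.1 hu with hu | hu
      · obtain ⟨a, ha, rfl⟩ := mem_image.1 hu
        by_cases h : a < J.1
        · exact Or.inr (Or.inr ⟨a, h, rfl⟩)
        · left
          have : a = c.2.1 := by dsimp only at hu3; omega
          rw [this]
      · obtain ⟨a, ha, rfl⟩ := mem_image.1 hu
        right; left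
        have : a = c.2.1 := by dsimp only at hu3; omega
        rw [this]
  · refine acyc_of_rank _ (fun c => if T.getD c.1.2.1 0 < c.1.2.2 then c.1.2.2 else
      c.1.2.2 + 3 * J.2.1.length) ?_
    rintro ⟨⟨a, b, e⟩, hv, hv'⟩ ⟨⟨a1, b1, e1⟩, hu, hu'⟩ ⟨⟨a2, b2, e2⟩, hw, hw'⟩ k1 k2 r1 r2
    rw [hS] at hv' hu' hw'
    rw [mem_vs] at hv hu hw
    have n0 := nz hv fun h => hv' (Or.inl h)
    have n1 := nz hu fun h => hu' (Or.inl h)
    have n2 := nz hw fun h => hw' (Or.inl h)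
    obtain ⟨e3, k3⟩ := adnz n0.1 n1.1 (A_iff.1 k1).2
    obtain ⟨e4, k4⟩ := adnz n0.1 n2.1 (A_iff.1 k2).2
    dsimp only at r1 r2 hv' hu' hw'
    simp only [e3] at r1 hu'
    simp only [e4] at r2 hw'
    have : a1 = a2 ∧ e1 = e2 := by
      rcases k3 with k3 | ⟨h3', q1, q7⟩ <;> rcases k4 with k4 | ⟨h4', q2, q8⟩
      · clear hv' hu' hw' r1 r2 n0 n1 n2
        omega
      · have := k3.1
        clear hv' hu' hw' r1 r2 n0 n1 n2 q8 k3
        omega
      · have := k4.1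
        clear hv' hu' hw' r1 r2 n0 n1 n2 q7 k4
        omega
      · have q0 := (n0.2 h3').1
        have q3 := h3 _ (hT b q0)
        have q4 : e ≠ T.getD b 0 := fun h => hv' (Or.inr ⟨h3', q0, h⟩)
        have q5 : e1 ≠ T.getD b 0 := fun h => hu' (Or.inr ⟨q1, q0, h⟩)
        have q6 : e2 ≠ T.getD b 0 := fun h => hw' (Or.inr ⟨q2, q0, h⟩)
        exact ⟨q1.trans q2.symm,
          rk q3 q4 q5 q6 q7 q8 (n0.2 h3').2 (n1.2 q1).2 (n2.2 q2).2 r1 r2⟩
    exact Subtype.ext (Prod.ext this.1 (Prod.ext (e3.trans e4.symm) this.2))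

theorem back {J : SP} (hJ : Valid J) (h : Yes (red J)) : Packs J := by
  classical
  obtain ⟨S, h1, -, h2, h3⟩ := (yes_iff (nd J) _ _ _).1 h
  have hm : 0 < J.2.1.length := List.length_pos_iff.2 hJ.2.1
  have forced : ∀ a < 2 * J.1 + 1, ((0, a, 0) : Cd) ∈ S := fun a ha => by
    by_contra hn
    have hsub : range (2 * J.1 + 1 + J.2.2 + 1) ⊆ S.image fun c => c.2.2 := fun t ht => by
      rw [mem_range] at ht
      by_contra hn'
      have n1 : ∀ r, ((r, a, t) : Cd) ∉ S := fun r h => hn' (mem_image.2 ⟨_, h, rfl⟩)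
      refine not_acyc _ 2 le_rfl ![⟨(0, a, 0), mem_vs.2 (by simp [ok, ha]), hn⟩,
        ⟨(1, a, t), mem_vs.2 (by simp [ok, ha, ht]), n1 1⟩,
        ⟨(2, a, t), mem_vs.2 (by simp [ok, ha, ht]), n1 2⟩] ?_ ?_ ?_ h3
      · intro i j
        fin_cases i <;> fin_cases j <;> simp
      · intro j
        fin_cases j
        · exact A_of (by simp [ad]) (by simp)
        · exact A_of (by simp [ad]) (by simp)
      · exact A_of (by simp [ad]) (by simp)
    have := (card_le_card hsub).trans card_image_le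
    rw [card_range] at this
    omega
  have hit : ∀ i < J.2.2, ∃ j, ((3, i, j) : Cd) ∈ S := fun i hi => by
    by_contra hn
    push Not at hn
    refine not_acyc _ (3 * J.2.1.length - 1) (by omega) (fun j => ⟨(3, i, j.1),
      mem_vs.2 (Or.inr (Or.inr ⟨rfl, hi, by have := j.2; dsimp only; omega⟩)), hn _⟩)
      (fun a b h => Fin.ext (congrArg (fun z => z.1.2.2) h)) (fun j => ?_) ?_ h3
    · exact A_of (by simp [ad]) (by simp)
    · refine A_of (by simp [ad]; omega) (by simp; omega)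
  choose! σ hσ using hit
  have key : ∀ i < J.2.2, ∀ i' < J.2.2, ∀ x, inF J x (σ i) → inF J x (σ i') → i = i' := by
    intro i hi i' hi' x e1 e2
    by_contra hne
    have hx : x < J.1 := by
      unfold inF at e1
      rw [List.getD_eq_getElem _ _ (Nat.mod_lt _ hm)] at e1
      exact (hJ.1 _ (List.getElem_mem _)).2 x e1
    have := le_trans (card_le_card (s := insert (3, i, σ i) (insert (3, i', σ i')
      ((Ico J.1 (2 * J.1 + 1)).image fun a => ((0, a, 0) : Cd)))) fun u hu => ?_)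
      (h2 (0, x, 0) (mem_vs.2 (Or.inl ⟨rfl, by dsimp only; omega, rfl⟩)))
    · rw [card_insert_of_notMem (by simp [hne]), card_insert_of_notMem (by simp),
        card_image_of_injective _ (fun a b h => by simpa using h), Nat.card_Ico] at this
      omega
    · simp only [mem_insert, mem_image, mem_Ico] at hu
      rcases hu with rfl | rfl | ⟨a, ha, rfl⟩
      · exact mem_filter.2 ⟨hσ i hi, A_of (by simp [ad, hx, e1]) (by simp)⟩
      · exact mem_filter.2 ⟨hσ i' hi', A_of (by simp [ad, hx, e2]) (by simp)⟩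
      · exact mem_filter.2 ⟨forced a ha.2, A_of (by simp [ad, hx, ha.1]) (by simp; omega)⟩
  refine ⟨(List.range J.2.2).map fun i => σ i % J.2.1.length,
    List.nodup_range.map_on fun i hi i' hi' e => ?_, by simp, fun t ht => ?_,
    fun t ht t' ht' hne x hx hx' => ?_⟩
  · obtain ⟨x, hx⟩ := List.exists_mem_of_ne_nil _
      (hJ.1 _ (List.getElem_mem (Nat.mod_lt (σ i) hm))).1
    rw [← List.getD_eq_getElem _ []] at hx
    exact key i (List.mem_range.1 hi) i' (List.mem_range.1 hi') x hx (by unfold inF; rwa [← e])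
  · obtain ⟨i, -, rfl⟩ := List.mem_map.1 ht
    exact Nat.mod_lt _ hm
  · obtain ⟨i, hi, rfl⟩ := List.mem_map.1 ht
    obtain ⟨i', hi', rfl⟩ := List.mem_map.1 ht'
    exact hne (by rw [key i (List.mem_range.1 hi) i' (List.mem_range.1 hi') x hx hx'])

theorem pt_vs : PT vs := by unfold vs ok; fun_prop

theorem pt_red : PT red :=
  PT.mk (pt_mkG (adj := adj) pt_vs (by unfold adj ad inF; fun_prop)) (by fun_prop)

theorem result (h : PolyKernel) : Compress := by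
  obtain ⟨f, hf, a, c, h⟩ := h
  have h3 : PT fun J : SP => (Dec.dec (⟨f (enc (red J))⟩ : Bits) : Inst) :=
    Dec.pt.comp ((Sim.pt_of_polyTime hf).comp pt_red.raw)
  obtain ⟨g, hg, h4⟩ := h3.polyTimeOn fun _ => True
  refine ⟨g, hg, a * 3 ^ c, c, fun J hJ => ?_⟩
  obtain ⟨I', e, h5, h6⟩ := h (red J) (by show 1 ≤ J.1 + 2; omega)
  refine ⟨I', by rw [h4 J trivial]; simp only [e]; exact congrArg _ (Dec.dec_raw I'),
    Iff.trans ⟨forth, back hJ⟩ h5, h6.trans ?_⟩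
  rw [mul_assoc, ← mul_pow]
  refine Nat.mul_le_mul_left _ (Nat.pow_le_pow_left ?_ _)
  have := hJ.2.2
  show 2 * J.1 + 1 + J.2.2 + 1 ≤ _
  omega

end Pool.Agent.Results.MP_a87d5d_lc.NoKernel
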